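import Pool.Agent.Q3.RandK.Main

set_option autoImplicit false

open MeasureTheory Filter

namespace Pool.Agent.Results.MP_bc03d6_nt.RandomKhintchine

/-- `W_ω(Ψ)`: the points `x` of the unit cube with `|x_i - ω_{j,i}| < ψ_i(j)` for all `i`, for
infinitely many `j`. -/
def W {n : ℕ} (ω : ℕ → (Fin n → unitInterval)) (ψ : Fin n → ℕ → ℝ) : Set (Fin n → unitInterval) :=
  {x | ∃ᶠ j in atTop, ∀ i, |(x i : ℝ) - ω j i| < ψ i j}

/-- For almost every sequence `ω` of points of the unit cube, simultaneously for all tuples `Ψ` of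
non-increasing positive functions: if `∑ ∏ ψ_i(j) = ∞` then `W_ω(Ψ)` has measure one. -/
theorem result (n : ℕ) (hn : 1 ≤ n) :
    ∀ᵐ ω ∂(Measure.infinitePi fun _ : ℕ => (volume : Measure (Fin n → unitInterval))),
      ∀ ψ : Fin n → ℕ → ℝ, (∀ i, Antitone (ψ i)) → (∀ i j, 0 < ψ i j) →
        (¬ Summable fun j => ∏ i, ψ i j) →
        (volume : Measure (Fin n → unitInterval)) (W ω ψ) = 1 :=
  Pool.Agent.Q3.RandK.main hn

end Pool.Agent.Results.MP_bc03d6_nt.RandomKhintchine
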